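import Pool.Agent.Q120.BU.Stm

/-!
# Project BU, job SPC: the special system
-/

set_option autoImplicit false

namespace Pool.Agent.Q195.BU

open Finset Filter Polynomial Pool.Agent.Q120.BU
open scoped Topology

namespace SPC

variable {Q k g : ℕ} {C : ℝ} {M : ℕ}

theorem va_spec (i : Fin k) (n : ℕ) :
    va (spec Q k g C M i) n = ⌊(M : ℝ) ^ C⌋₊ * n ^ g + ((i : ℕ) * Q + 1) := by
  unfold va spec
  have h : (((((⌊(M : ℝ) ^ C⌋₊ : ℕ) : ℤ)) • (X ^ g : ℤ[X]) +
      Polynomial.C (((i : ℕ) * Q + 1 : ℕ) : ℤ)).eval (n : ℤ)) =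
      ((⌊(M : ℝ) ^ C⌋₊ * n ^ g + ((i : ℕ) * Q + 1) : ℕ) : ℤ) := by
    rw [eval_add, eval_smul, eval_pow, eval_X, eval_C, smul_eq_mul]
    push_cast
    ring
  rw [h, Int.toNat_natCast]

theorem coeff_spec (i : Fin k) (j : ℕ) :
    (spec Q k g C M i).coeff j = (⌊(M : ℝ) ^ C⌋₊ : ℤ) * (if j = g then 1 else 0) +
      (if j = 0 then (((i : ℕ) * Q + 1 : ℕ) : ℤ) else 0) := by
  unfold spec
  rw [coeff_add, coeff_smul, coeff_X_pow, coeff_C, smul_eq_mul]

theorem natDegree_spec (_hg : 1 ≤ g) (ha : ⌊(M : ℝ) ^ C⌋₊ ≠ 0) (i : Fin k) :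
    (spec Q k g C M i).natDegree = g := by
  unfold spec
  rw [natDegree_add_C, smul_eq_C_mul, natDegree_C_mul_X_pow]
  exact_mod_cast ha

theorem count (hQ : 1 ≤ Q) (hM : 4 * Q ≤ M) :
    (M : ℝ) / (2 * Q) ≤ (((Ico M (2 * M)).filter (fun n => Q ∣ n)).card : ℝ) := by
  have h1 : M / Q - 1 ≤ ((Ico M (2 * M)).filter (fun n => Q ∣ n)).card := by
    have h2 : ((range (M / Q - 1)).image (fun j => Q * (M / Q + 1 + j))) ⊆
        (Ico M (2 * M)).filter (fun n => Q ∣ n) := by
      intro n hn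
      rw [mem_image] at hn
      obtain ⟨j, hj, rfl⟩ := hn
      rw [mem_range] at hj
      rw [mem_filter, mem_Ico]
      have h3 := Nat.div_add_mod M Q
      have h4 := Nat.mod_lt M (by omega : Q > 0)
      refine ⟨⟨?_, ?_⟩, dvd_mul_right _ _⟩
      · have : Q * (M / Q + 1 + j) = Q * (M / Q) + Q + Q * j := by ring
        rw [this]
        have : 0 ≤ Q * j := Nat.zero_le _
        omega
      · have h5 : Q * (M / Q + 1 + j) < Q * (2 * (M / Q)) := by
          apply Nat.mul_lt_mul_of_pos_left _ (by omega)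
          omega
        have h6 : Q * (2 * (M / Q)) = 2 * (Q * (M / Q)) := by ring
        omega
    have h3 := card_le_card h2
    rw [card_image_of_injective, card_range] at h3
    · exact h3
    · intro x y hxy
      have h4 : Q * (M / Q + 1 + x) = Q * (M / Q + 1 + y) := hxy
      have h5 := Nat.eq_of_mul_eq_mul_left (by omega : 0 < Q) h4
      omega
  have h2 : (M : ℝ) < Q * ((M / Q : ℕ) + 1) := by
    have h3 := Nat.div_add_mod M Q
    have h4 := Nat.mod_lt M (by omega : Q > 0)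
    have h5 : M < Q * (M / Q + 1) := by
      rw [mul_add, mul_one]; omega
    exact_mod_cast h5
  have hQ' : (1 : ℝ) ≤ Q := by exact_mod_cast hQ
  have hM' : (4 : ℝ) * Q ≤ M := by exact_mod_cast hM
  have h3 : ((M / Q : ℕ) : ℝ) - 1 ≤ (((Ico M (2 * M)).filter (fun n => Q ∣ n)).card : ℝ) := by
    have h4 : M / Q ≤ ((Ico M (2 * M)).filter (fun n => Q ∣ n)).card + 1 := by omega
    have h5 : ((M / Q : ℕ) : ℝ) ≤ (((Ico M (2 * M)).filter (fun n => Q ∣ n)).card : ℝ) + 1 := by
      exact_mod_cast h4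
    linarith
  refine le_trans ?_ h3
  have hQ0 : (0 : ℝ) < 2 * Q := by linarith
  rw [div_le_iff₀ hQ0]
  nlinarith

end SPC

open SPC in
/-- **Job SPC.** -/
theorem t_SPC : J_SPC := by
  intro Q k g C hQ hk hg hC
  have hQ' : (1 : ℝ) ≤ Q := by exact_mod_cast hQ
  set D : ℝ := 2 * g + 1 + C with hD
  have hD3 : (3 : ℝ) < D := by
    have : (1 : ℝ) ≤ g := by exact_mod_cast hg
    rw [hD]; linarith
  refine ⟨1 / (2 * Q * D ^ k), by positivity, ?_⟩
  have e1 : ∀ᶠ M : ℕ in atTop, ((k * Q + 2 : ℕ) : ℝ) ≤ (M : ℝ) ^ C :=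
    ((tendsto_rpow_atTop hC).comp tendsto_natCast_atTop_atTop).eventually_ge_atTop _
  filter_upwards [e1, eventually_ge_atTop (4 * Q), eventually_ge_atTop 3] with M h1 h2 h3
  have hM1 : (1 : ℝ) ≤ M := by exact_mod_cast (by omega : 1 ≤ M)
  have hM0 : (0 : ℝ) < M := by linarith
  -- the leading coefficient
  obtain ⟨a, ha⟩ : ∃ a : ℕ, a = ⌊(M : ℝ) ^ C⌋₊ := ⟨_, rfl⟩
  have hMC : 0 ≤ (M : ℝ) ^ C := by positivity
  have ha1 : k * Q + 2 ≤ a := by rw [ha]; exact Nat.le_floor h1
  have ha2 : (a : ℝ) ≤ (M : ℝ) ^ C := by rw [ha]; exact Nat.floor_le hMC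
  have ha3 : (M : ℝ) ^ C < a + 1 := by rw [ha]; exact Nat.lt_floor_add_one _
  have ha4 : (M : ℝ) ^ C / 2 ≤ a := by
    have : (2 : ℝ) ≤ a := by exact_mod_cast (by omega : 2 ≤ a)
    linarith
  have hi : ∀ i : Fin k, (i : ℕ) * Q + 1 ≤ k * Q := fun i => by
    have h4 : ((i : ℕ) + 1) * Q ≤ k * Q := Nat.mul_le_mul_right _ i.2
    have h5 : ((i : ℕ) + 1) * Q = (i : ℕ) * Q + Q := by ring
    omega
  have hva : ∀ (i : Fin k) (n : ℕ), va (spec Q k g C M i) n = a * n ^ g + ((i : ℕ) * Q + 1) := by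
    intro i n
    rw [va_spec, ha]
  have hco : ∀ (i : Fin k) (j : ℕ), (spec Q k g C M i).coeff j = (a : ℤ) * (if j = g then 1 else 0) +
      (if j = 0 then (((i : ℕ) * Q + 1 : ℕ) : ℤ) else 0) := by
    intro i j
    rw [coeff_spec, ha]
  -- distinct values
  have hdis : ∀ i j : Fin k, ∀ n m : ℕ, va (spec Q k g C M i) n = va (spec Q k g C M j) m → i = j := by
    intro i j n m h
    rw [hva, hva] at h
    have h5 := hi i
    have h6 := hi j
    have h7 : (a * n ^ g + ((i : ℕ) * Q + 1)) % a = (a * m ^ g + ((j : ℕ) * Q + 1)) % a := by rw [h]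
    rw [Nat.mul_add_mod, Nat.mul_add_mod, Nat.mod_eq_of_lt (by omega), Nat.mod_eq_of_lt (by omega)]
      at h7
    have h8 : (i : ℕ) * Q = (j : ℕ) * Q := by omega
    exact Fin.ext (Nat.eq_of_mul_eq_mul_right (by omega) h8)
  have hbd : ∀ i : Fin k, ∀ n ∈ Ico M (2 * M), (M : ℝ) ^ (g + C) / 2 ≤ va (spec Q k g C M i) n ∧
      (va (spec Q k g C M i) n : ℝ) ≤ 2 ^ (g + 1) * (M : ℝ) ^ (g + C) := by
    intro i n hn
    rw [mem_Ico] at hn
    have hn1 : (M : ℝ) ≤ n := by exact_mod_cast hn.1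
    have hn2 : (n : ℝ) ≤ 2 * M := by exact_mod_cast hn.2.le
    have hsp : (M : ℝ) ^ ((g : ℝ) + C) = (M : ℝ) ^ g * (M : ℝ) ^ C := by
      rw [Real.rpow_add hM0, Real.rpow_natCast]
    have hi' : (((i : ℕ) * Q + 1 : ℕ) : ℝ) ≤ (M : ℝ) ^ C := by
      have h5 := hi i
      have h6 : (((i : ℕ) * Q + 1 : ℕ) : ℝ) ≤ ((k * Q + 2 : ℕ) : ℝ) := by
        exact_mod_cast (by omega : (i : ℕ) * Q + 1 ≤ k * Q + 2)
      exact h6.trans h1
    have hc : (va (spec Q k g C M i) n : ℝ) = a * (n : ℝ) ^ g + (((i : ℕ) * Q + 1 : ℕ) : ℝ) := by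
      rw [hva]; push_cast; ring
    have hMg : (1 : ℝ) ≤ (M : ℝ) ^ g := one_le_pow₀ hM1
    rw [hc, hsp]
    constructor
    · have h5 : (M : ℝ) ^ g ≤ (n : ℝ) ^ g := pow_le_pow_left₀ hM0.le hn1 g
      have h6 : (M : ℝ) ^ C / 2 * (M : ℝ) ^ g ≤ a * (n : ℝ) ^ g :=
        mul_le_mul ha4 h5 (by positivity) (by positivity)
      have h7 : (0 : ℝ) ≤ (((i : ℕ) * Q + 1 : ℕ) : ℝ) := Nat.cast_nonneg _
      linarith
    · have h5 : (n : ℝ) ^ g ≤ 2 ^ g * (M : ℝ) ^ g := by
        rw [← mul_pow]; exact pow_le_pow_left₀ (by positivity) hn2 g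
      have h6 : a * (n : ℝ) ^ g ≤ (M : ℝ) ^ C * (2 ^ g * (M : ℝ) ^ g) :=
        mul_le_mul ha2 h5 (by positivity) hMC
      have h8 : (1 : ℝ) ≤ 2 ^ g * (M : ℝ) ^ g := by
        have : (1 : ℝ) ≤ 2 ^ g := one_le_pow₀ (by norm_num)
        nlinarith
      have h9 : (((i : ℕ) * Q + 1 : ℕ) : ℝ) ≤ (M : ℝ) ^ C * (2 ^ g * (M : ℝ) ^ g) := by
        refine hi'.trans ?_
        exact le_mul_of_one_le_right hMC h8
      have h10 : (2 : ℝ) ^ (g + 1) = 2 * 2 ^ g := by ring
      rw [h10]
      nlinarith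
  refine ⟨⟨?_, ?_, ?_, ?_⟩, ?_, ?_, ?_, hbd, hdis, ?_⟩
  · intro i j hij
    exact hdis i j 0 0 (by rw [hij])
  · intro i
    rw [natDegree_spec hg (by rw [← ha]; omega)]
    exact hg
  · intro i
    rw [natDegree_spec hg (by rw [← ha]; omega)]
  · intro i j
    rw [hco]
    have h5 := hi i
    by_cases hj : j = g
    · have hj0 : j ≠ 0 := by omega
      rw [if_pos hj, if_neg hj0]
      push_cast
      rw [mul_one, add_zero, abs_of_nonneg (by positivity)]
      exact ha2
    · rw [if_neg hj]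
      split_ifs with hj0
      · push_cast
        rw [mul_zero, zero_add, abs_of_nonneg (by positivity)]
        refine le_trans ?_ ha2
        exact_mod_cast (by omega : (i : ℕ) * Q + 1 ≤ a)
      · simpa using hMC
  · intro i j
    rw [hco]
    have : (0 : ℤ) ≤ a := Int.natCast_nonneg a
    split_ifs <;> positivity
  · -- the singular series
    have hφ : 0 < Nat.totient Q := Nat.totient_pos.2 hQ
    have hφ' : (0 : ℝ) < Nat.totient Q := by exact_mod_cast hφ
    have h5 : (1 : ℝ) ≤ (Q : ℝ) / Nat.totient Q := by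
      rw [one_le_div hφ']
      exact_mod_cast Nat.totient_le Q
    have h6 : 1 ≤ ((range Q).filter
        (fun r => ∀ i, (va (spec Q k g C M i) r).Coprime Q)).card := by
      apply card_pos.2
      refine ⟨0, ?_⟩
      rw [mem_filter, mem_range]
      refine ⟨by omega, fun i => ?_⟩
      rw [hva, zero_pow (by omega), mul_zero, zero_add]
      exact (Nat.coprime_mul_right_add_left 1 Q i).2 (Nat.coprime_one_left Q)
    unfold SS
    have h7 : (Q : ℝ) ≠ 0 := by linarith
    have h8 : (1 : ℝ) ≤ (((range Q).filter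
        (fun r => ∀ i, (va (spec Q k g C M i) r).Coprime Q)).card : ℝ) := by exact_mod_cast h6
    have h9 : (Q : ℝ) * ((((range Q).filter
        (fun r => ∀ i, (va (spec Q k g C M i) r).Coprime Q)).card : ℝ) / Q *
        ((Q : ℝ) / Nat.totient Q) ^ k) = (((range Q).filter
        (fun r => ∀ i, (va (spec Q k g C M i) r).Coprime Q)).card : ℝ) *
        ((Q : ℝ) / Nat.totient Q) ^ k := by
      field_simp
    rw [h9]
    have h10 : (1 : ℝ) ≤ ((Q : ℝ) / Nat.totient Q) ^ k := one_le_pow₀ h5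
    nlinarith
  · -- the expectation
    have hφ : 0 < Nat.totient Q := Nat.totient_pos.2 hQ
    have hφ' : (0 : ℝ) < Nat.totient Q := by exact_mod_cast hφ
    have hQφ : (1 : ℝ) ≤ (Q : ℝ) / Nat.totient Q := by
      rw [one_le_div hφ']
      exact_mod_cast Nat.totient_le Q
    have hL : 1 < Real.log M := by
      rw [Real.lt_log_iff_exp_lt hM0]
      have h5 : (3 : ℝ) ≤ M := by exact_mod_cast h3
      have := Real.exp_one_lt_d9
      linarith
    have hlv0 : ∀ n, 0 ≤ lv Q n := by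
      intro n
      unfold lv
      split_ifs with h5
      · have h6 : (3 : ℝ) ≤ n := by exact_mod_cast h5.1
        have h7 : 0 ≤ Real.log n := Real.log_nonneg (by linarith)
        exact le_min (by norm_num) (by positivity)
      · exact le_rfl
    have hlv : ∀ n ∈ (Ico M (2 * M)).filter (fun n => Q ∣ n), ∀ v ∈ vals (spec Q k g C M) n,
        1 / (D * Real.log M) ≤ lv Q v := by
      intro n hn v hv
      rw [mem_filter] at hn
      obtain ⟨hn1, hn2⟩ := hn
      unfold vals at hv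
      rw [mem_image] at hv
      obtain ⟨i, -, hiv⟩ := hv
      have hb := hbd i n hn1
      rw [hiv] at hb
      rw [hva] at hiv
      rw [mem_Ico] at hn1
      have hng : 1 ≤ n ^ g := Nat.one_le_pow _ _ (by omega)
      have hag : a ≤ a * n ^ g := Nat.le_mul_of_pos_right _ (by omega)
      have hv3 : 3 ≤ v := by
        have h5 : 2 ≤ k * Q + 2 := by omega
        omega
      have hvQ : v.Coprime Q := by
        obtain ⟨m, rfl⟩ := hn2
        have h5 : v = (a * (Q ^ (g - 1) * m ^ g) + (i : ℕ)) * Q + 1 := by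
          rw [← hiv]
          obtain ⟨g', rfl⟩ : ∃ g', g = g' + 1 := ⟨g - 1, by omega⟩
          rw [Nat.add_sub_cancel]
          ring
        rw [h5]
        exact (Nat.coprime_mul_right_add_left 1 Q _).2 (Nat.coprime_one_left Q)
      unfold lv
      rw [if_pos (show v ∈ UQ Q from ⟨hv3, hvQ⟩)]
      have hv0 : (0 : ℝ) < v := by exact_mod_cast (by omega : 0 < v)
      have hv1 : (1 : ℝ) < v := by exact_mod_cast (by omega : 1 < v)
      have hlogv : 0 < Real.log v := Real.log_pos hv1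
      have hlog : Real.log v ≤ D * Real.log M := by
        have h5 := Real.log_le_log hv0 hb.2
        rw [Real.log_mul (by positivity) (by positivity), Real.log_pow, Real.log_rpow hM0] at h5
        have h6 : Real.log 2 ≤ Real.log M := Real.log_le_log (by norm_num) (by
          exact_mod_cast (by omega : 2 ≤ M))
        push_cast at h5
        have h7 : ((g : ℝ) + 1) * Real.log 2 ≤ ((g : ℝ) + 1) * Real.log M :=
          mul_le_mul_of_nonneg_left h6 (by positivity)
        rw [hD]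
        nlinarith
      apply le_min
      · rw [div_le_div_iff₀ (by positivity) (by norm_num)]
        nlinarith
      · calc 1 / (D * Real.log M) ≤ 1 / Real.log v := one_div_le_one_div_of_le hlogv hlog
          _ ≤ (Q : ℝ) / Nat.totient Q / Real.log v := by
              apply div_le_div_of_nonneg_right hQφ hlogv.le
    have hpos : 0 < D * Real.log M := by positivity
    have hle1 : 1 / (D * Real.log M) ≤ 1 := by
      rw [div_le_one hpos]
      nlinarith
    have hprod : ∀ n ∈ (Ico M (2 * M)).filter (fun n => Q ∣ n),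
        (1 / (D * Real.log M)) ^ k ≤ ∏ v ∈ vals (spec Q k g C M) n, lv Q v := by
      intro n hn
      have h5 : (vals (spec Q k g C M) n).card ≤ k := by
        unfold vals
        exact card_image_le.trans (by simp)
      calc (1 / (D * Real.log M)) ^ k ≤ (1 / (D * Real.log M)) ^ (vals (spec Q k g C M) n).card :=
            pow_le_pow_of_le_one (by positivity) hle1 h5
        _ = ∏ v ∈ vals (spec Q k g C M) n, (1 / (D * Real.log M)) := by rw [prod_const]
        _ ≤ _ := prod_le_prod (fun _ _ => by positivity) (hlv n hn)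
    have hsplit : ex (lv Q) (spec Q k g C M) (2 * M) - ex (lv Q) (spec Q k g C M) M =
        ∑ n ∈ Ico M (2 * M), ∏ v ∈ vals (spec Q k g C M) n, lv Q v := by
      unfold ex
      rw [sum_Ico_eq_sub _ (by omega : M ≤ 2 * M)]
    rw [hsplit]
    have hcount := count (Q := Q) hQ h2
    calc 1 / (2 * Q * D ^ k) * (M / Real.log M ^ k)
        = (M : ℝ) / (2 * Q) * (1 / (D * Real.log M)) ^ k := by
          rw [div_pow, one_pow, mul_pow]
          field_simp
      _ ≤ (((Ico M (2 * M)).filter (fun n => Q ∣ n)).card : ℝ) * (1 / (D * Real.log M)) ^ k :=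
          mul_le_mul_of_nonneg_right hcount (by positivity)
      _ = ∑ n ∈ (Ico M (2 * M)).filter (fun n => Q ∣ n), (1 / (D * Real.log M)) ^ k := by
          rw [sum_const, nsmul_eq_mul]
      _ ≤ ∑ n ∈ (Ico M (2 * M)).filter (fun n => Q ∣ n), ∏ v ∈ vals (spec Q k g C M) n, lv Q v :=
          sum_le_sum hprod
      _ ≤ _ := sum_le_sum_of_subset_of_nonneg (filter_subset _ _)
          fun n _ _ => prod_nonneg fun v _ => hlv0 v
  · intro i n m h
    have h5 : va (spec Q k g C M i) n = va (spec Q k g C M i) m := h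
    rw [hva, hva] at h5
    have h6 : a * n ^ g = a * m ^ g := by omega
    have h7 := Nat.eq_of_mul_eq_mul_left (by omega : 0 < a) h6
    exact Nat.pow_left_injective (by omega : g ≠ 0) h7

end Pool.Agent.Q195.BU
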